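import Mathlib

/-!
# Transversals, decision trees and decision diagrams
-/

set_option autoImplicit false

namespace Pool.Agent.L5helper90.DU

/-- `T` meets every edge of `H` -/
def IsTransversal {V : Type} (H : Finset (Finset V)) (T : Finset V) : Prop :=
  ∀ e ∈ H, ∃ v ∈ e, v ∈ T

/-- the minimal transversals of `H` -/
def Tr {V : Type} (H : Finset (Finset V)) : Set (Finset V) :=
  {T | IsTransversal H T ∧ ∀ S, S ⊂ T → ¬ IsTransversal H S}

/-- a decision tree: the inner nodes ask whether a vertex is in the set -/
inductive Tree (V L : Type)
  | leaf (l : L) : Tree V L
  | node (v : V) (s t : Tree V L) : Tree V L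

namespace Tree

variable {V W L L' : Type}

/-- the label of the leaf which is reached: `s` if the answer is yes, `t` if it is no -/
def run [DecidableEq V] : Tree V L → Finset V → L
  | leaf l, _ => l
  | node v s t, T => if v ∈ T then s.run T else t.run T

/-- the number of leaves -/
def leaves : Tree V L → ℕ
  | leaf _ => 1
  | node _ s t => s.leaves + t.leaves

/-- the subtrees; a decision tree with `m` different subtrees is the same thing as a decision diagram
(read-multiply branching program, directed acyclic graph) with `m` nodes, in which the equal
subtrees are identified -/
def subtrees : Tree V L → Set (Tree V L)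
  | leaf l => {leaf l}
  | node v s t => insert (node v s t) (s.subtrees ∪ t.subtrees)

end Tree

/-- a decision tree which certifies that `G` contains all minimal transversals of `F`: for every
set `T` it finds an edge of `F` which is missed by `T`, or a member of `G` which is contained in
`T` -/
def Certifies {V : Type} [DecidableEq V] (F G : Finset (Finset V))
    (t : Tree V (Finset V ⊕ Finset V)) : Prop :=
  ∀ T : Finset V, (∃ e ∈ F, t.run T = Sum.inl e ∧ Disjoint e T) ∨
    ∃ g ∈ G, t.run T = Sum.inr g ∧ g ⊆ T

end Pool.Agent.L5helper90.DU
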