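import Pool.Agent.L5helper90.DU.Low

/-!
# The pair of dual hypergraphs
-/

set_option autoImplicit false

namespace Pool.Agent.L5helper90.DU

/-- the embedding of block `p` -/
def emb {k : ℕ} (p : Bool × Bool) : Vk k ↪ Vk (k + 1) := ⟨fun v => (p, v), fun a b h => by
  have : (p, a).2 = (p, b).2 := congrArg Prod.snd (h : ((p, a) : (Bool × Bool) × Vk k) = (p, b))
  exact this⟩

/-- the set with the part `g` in block `p` and the part `h` in block `q` -/
def join {k : ℕ} (p : Bool × Bool) (g : Finset (Vk k)) (q : Bool × Bool) (h : Finset (Vk k)) :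
    Finset (Vk (k + 1)) := g.map (emb p) ∪ h.map (emb q)

/-- the part of a set in block `p` -/
def sect {k : ℕ} (p : Bool × Bool) (T : Finset (Vk (k + 1))) : Finset (Vk k) :=
  Finset.univ.filter fun v => emb p v ∈ T

theorem mem_sect {k : ℕ} {p : Bool × Bool} {T : Finset (Vk (k + 1))} {v : Vk k} :
    v ∈ sect p T ↔ emb p v ∈ T := by simp [sect]

theorem emb_eq {k : ℕ} {p q : Bool × Bool} {v w : Vk k} : emb p v = emb q w ↔ p = q ∧ v = w := by
  constructor
  · intro h
    exact ⟨congrArg Prod.fst (h : ((p, v) : (Bool × Bool) × Vk k) = (q, w)),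
      congrArg Prod.snd (h : ((p, v) : (Bool × Bool) × Vk k) = (q, w))⟩
  · rintro ⟨rfl, rfl⟩; rfl

theorem mem_join {k : ℕ} {p q r : Bool × Bool} {g h : Finset (Vk k)} {v : Vk k} :
    emb r v ∈ join p g q h ↔ (r = p ∧ v ∈ g) ∨ (r = q ∧ v ∈ h) := by
  unfold join
  rw [Finset.mem_union, Finset.mem_map, Finset.mem_map]
  constructor
  · rintro (⟨w, hw, e⟩ | ⟨w, hw, e⟩)
    · obtain ⟨rfl, rfl⟩ := emb_eq.1 e; exact Or.inl ⟨rfl, hw⟩
    · obtain ⟨rfl, rfl⟩ := emb_eq.1 e; exact Or.inr ⟨rfl, hw⟩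
  · rintro (⟨rfl, h⟩ | ⟨rfl, h⟩)
    · exact Or.inl ⟨v, h, rfl⟩
    · exact Or.inr ⟨v, h, rfl⟩

theorem join_subset {k : ℕ} {p q : Bool × Bool} {g h : Finset (Vk k)} {T : Finset (Vk (k + 1))} :
    join p g q h ⊆ T ↔ g ⊆ sect p T ∧ h ⊆ sect q T := by
  unfold join
  rw [Finset.union_subset_iff]
  constructor
  · rintro ⟨h1, h2⟩
    exact ⟨fun v hv => mem_sect.2 (h1 (Finset.mem_map_of_mem _ hv)),
      fun v hv => mem_sect.2 (h2 (Finset.mem_map_of_mem _ hv))⟩
  · rintro ⟨h1, h2⟩
    constructor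
    · intro u hu
      obtain ⟨v, hv, rfl⟩ := Finset.mem_map.1 hu
      exact mem_sect.1 (h1 hv)
    · intro u hu
      obtain ⟨v, hv, rfl⟩ := Finset.mem_map.1 hu
      exact mem_sect.1 (h2 hv)

theorem join_disjoint {k : ℕ} {p q : Bool × Bool} {g h : Finset (Vk k)}
    {T : Finset (Vk (k + 1))} :
    Disjoint (join p g q h) T ↔ Disjoint g (sect p T) ∧ Disjoint h (sect q T) := by
  unfold join
  rw [Finset.disjoint_union_left]
  simp only [Finset.disjoint_left]
  constructor
  · rintro ⟨h1, h2⟩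
    exact ⟨fun v hv hv' => h1 (Finset.mem_map_of_mem _ hv) (mem_sect.1 hv'),
      fun v hv hv' => h2 (Finset.mem_map_of_mem _ hv) (mem_sect.1 hv')⟩
  · rintro ⟨h1, h2⟩
    constructor
    · intro u hu
      obtain ⟨v, hv, rfl⟩ := Finset.mem_map.1 hu
      exact fun h' => h1 hv (mem_sect.2 h')
    · intro u hu
      obtain ⟨v, hv, rfl⟩ := Finset.mem_map.1 hu
      exact fun h' => h2 hv (mem_sect.2 h')

theorem card_join {k : ℕ} {p q : Bool × Bool} (hpq : p ≠ q) (g h : Finset (Vk k)) :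
    (join p g q h).card = g.card + h.card := by
  unfold join
  rw [Finset.card_union_of_disjoint, Finset.card_map, Finset.card_map]
  rw [Finset.disjoint_left]
  intro u hu hu'
  obtain ⟨v, hv, rfl⟩ := Finset.mem_map.1 hu
  obtain ⟨v', hv', e⟩ := Finset.mem_map.1 hu'
  exact hpq (emb_eq.1 e).1.symm

/-- the members of the second hypergraph -/
def mkG {k : ℕ} (c : Bool × Finset (Vk k) × Finset (Vk k)) : Finset (Vk (k + 1)) :=
  join (c.1, false) c.2.1 (c.1, true) c.2.2

/-- the members of the first hypergraph -/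
def mkE {k : ℕ} (c : (Bool × Finset (Vk k)) × (Bool × Finset (Vk k))) : Finset (Vk (k + 1)) :=
  join (false, c.1.1) c.1.2 (true, c.2.1) c.2.2

/-- the second hypergraph -/
def HG : ∀ k, Finset (Finset (Vk k))
  | 0 => ({{false}, {true}} : Finset (Finset Bool))
  | k + 1 => (Finset.univ ×ˢ (HG k ×ˢ HG k)).image mkG

/-- the first hypergraph -/
def HE : ∀ k, Finset (Finset (Vk k))
  | 0 => ({{false, true}} : Finset (Finset Bool))
  | k + 1 => ((Finset.univ ×ˢ HE k) ×ˢ (Finset.univ ×ˢ HE k)).image mkE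

theorem mem_HG {k : ℕ} {T : Finset (Vk (k + 1))} : T ∈ HG (k + 1) ↔
    ∃ i, ∃ g ∈ HG k, ∃ h ∈ HG k, join (i, false) g (i, true) h = T := by
  simp only [HG, Finset.mem_image, Finset.mem_product, Finset.mem_univ, true_and, mkG]
  constructor
  · rintro ⟨⟨i, g, h⟩, ⟨h1, h2⟩, rfl⟩; exact ⟨i, g, h1, h, h2, rfl⟩
  · rintro ⟨i, g, h1, h, h2, rfl⟩; exact ⟨⟨i, g, h⟩, ⟨h1, h2⟩, rfl⟩

theorem mem_HE {k : ℕ} {T : Finset (Vk (k + 1))} : T ∈ HE (k + 1) ↔
    ∃ i, ∃ g ∈ HE k, ∃ j, ∃ h ∈ HE k, join (false, i) g (true, j) h = T := by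
  simp only [HE, Finset.mem_image, Finset.mem_product, Finset.mem_univ, true_and, mkE]
  constructor
  · rintro ⟨⟨⟨i, g⟩, j, h⟩, ⟨h1, h2⟩, rfl⟩; exact ⟨i, g, h1, j, h, h2, rfl⟩
  · rintro ⟨i, g, h1, j, h, h2, rfl⟩; exact ⟨⟨⟨i, g⟩, j, h⟩, ⟨h1, h2⟩, rfl⟩

theorem card_of_mem_HG : ∀ {k : ℕ} {g : Finset (Vk k)}, g ∈ HG k → g.card = 2 ^ k
  | 0, g, hg => by
    have : ∀ g : Finset Bool, g ∈ ({{false}, {true}} : Finset (Finset Bool)) → g.card = 1 := by
      decide
    exact this g hg
  | k + 1, g, hg => by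
    obtain ⟨i, a, ha, b, hb, rfl⟩ := mem_HG.1 hg
    rw [card_join (by simp), card_of_mem_HG ha, card_of_mem_HG hb]
    ring

theorem card_of_mem_HE : ∀ {k : ℕ} {g : Finset (Vk k)}, g ∈ HE k → g.card = 2 ^ (k + 1)
  | 0, g, hg => by
    have : ∀ g : Finset Bool, g ∈ ({{false, true}} : Finset (Finset Bool)) → g.card = 2 := by
      decide
    exact this g hg
  | k + 1, g, hg => by
    obtain ⟨i, a, ha, j, b, hb, rfl⟩ := mem_HE.1 hg
    rw [card_join (by simp), card_of_mem_HE ha, card_of_mem_HE hb]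
    ring

theorem nonempty_of_mem_HG {k : ℕ} {g : Finset (Vk k)} (h : g ∈ HG k) : g.Nonempty := by
  rw [← Finset.card_pos, card_of_mem_HG h]; positivity

theorem nonempty_of_mem_HE {k : ℕ} {g : Finset (Vk k)} (h : g ∈ HE k) : g.Nonempty := by
  rw [← Finset.card_pos, card_of_mem_HE h]; positivity

theorem card_HG : ∀ k, (HG k).card = 2 ^ (2 ^ (k + 1) - 1)
  | 0 => by
    have : ({{false}, {true}} : Finset (Finset Bool)).card = 2 := by decide
    exact this
  | k + 1 => by
    have hinj : Set.InjOn (mkG (k := k)) ((Finset.univ ×ˢ (HG k ×ˢ HG k) :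
        Finset (Bool × Finset (Vk k) × Finset (Vk k))) : Set _) := by
      rintro ⟨i, g, h⟩ h1 ⟨i', g', h'⟩ h2 e
      simp only [Finset.coe_product, Finset.coe_univ, Set.mem_prod, Set.mem_univ, true_and,
        Finset.mem_coe] at h1 h2
      have key : ∀ r v, ((r = (i, false) ∧ v ∈ g) ∨ (r = (i, true) ∧ v ∈ h)) ↔
          ((r = (i', false) ∧ v ∈ g') ∨ (r = (i', true) ∧ v ∈ h')) := by
        intro r v
        rw [← mem_join, ← mem_join]
        have : join (i, false) g (i, true) h = join (i', false) g' (i', true) h' := e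
        rw [this]
      obtain ⟨v, hv⟩ := nonempty_of_mem_HG h1.1
      have hi : i = i' := by
        rcases (key (i, false) v).1 (Or.inl ⟨rfl, hv⟩) with h3 | h3
        · exact congrArg Prod.fst h3.1
        · exact congrArg Prod.fst h3.1
      subst hi
      have hg : g = g' := by
        ext v
        have := key (i, false) v
        simpa using this
      have hh : h = h' := by
        ext v
        have := key (i, true) v
        simpa using this
      rw [hg, hh]
    rw [HG, Finset.card_image_of_injOn hinj, Finset.card_product, Finset.card_product,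
      card_HG k]
    have e1 : (Finset.univ : Finset Bool).card = 2 ^ 1 := by decide
    rw [e1, ← pow_add, ← pow_add]
    congr 1
    have : 1 ≤ 2 ^ (k + 1) := Nat.one_le_two_pow
    rw [pow_succ 2 (k + 1)]
    omega

theorem card_HE : ∀ k, (HE k).card = 2 ^ (2 ^ (k + 1) - 2)
  | 0 => by
    have : ({{false, true}} : Finset (Finset Bool)).card = 1 := by decide
    exact this
  | k + 1 => by
    have hinj : Set.InjOn (mkE (k := k)) (((Finset.univ ×ˢ HE k) ×ˢ (Finset.univ ×ˢ HE k) :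
        Finset ((Bool × Finset (Vk k)) × (Bool × Finset (Vk k)))) : Set _) := by
      rintro ⟨⟨i, g⟩, j, h⟩ h1 ⟨⟨i', g'⟩, j', h'⟩ h2 e
      simp only [Finset.coe_product, Finset.coe_univ, Set.mem_prod, Set.mem_univ, true_and,
        Finset.mem_coe] at h1 h2
      have key : ∀ r v, ((r = (false, i) ∧ v ∈ g) ∨ (r = (true, j) ∧ v ∈ h)) ↔
          ((r = (false, i') ∧ v ∈ g') ∨ (r = (true, j') ∧ v ∈ h')) := by
        intro r v
        rw [← mem_join, ← mem_join]
        have : join (false, i) g (true, j) h = join (false, i') g' (true, j') h' := e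
        rw [this]
      obtain ⟨v, hv⟩ := nonempty_of_mem_HE h1.1
      obtain ⟨u, hu⟩ := nonempty_of_mem_HE h1.2
      have hi : i = i' := by
        rcases (key (false, i) v).1 (Or.inl ⟨rfl, hv⟩) with h3 | h3
        · exact congrArg Prod.snd h3.1
        · have := congrArg Prod.fst h3.1
          simp at this
      have hj : j = j' := by
        rcases (key (true, j) u).1 (Or.inr ⟨rfl, hu⟩) with h3 | h3
        · have := congrArg Prod.fst h3.1
          simp at this
        · exact congrArg Prod.snd h3.1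
      subst hi hj
      have hg : g = g' := by
        ext v
        have := key (false, i) v
        simpa using this
      have hh : h = h' := by
        ext v
        have := key (true, j) v
        simpa using this
      rw [hg, hh]
    rw [HE, Finset.card_image_of_injOn hinj, Finset.card_product, Finset.card_product,
      card_HE k]
    have e1 : (Finset.univ : Finset Bool).card = 2 ^ 1 := by decide
    rw [e1, ← pow_add, ← pow_add]
    congr 1
    have : 2 ≤ 2 ^ (k + 1) := by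
      rw [pow_succ]; have := Nat.one_le_two_pow (n := k); omega
    rw [pow_succ 2 (k + 1)]
    omega

/-- the point of the cube of the set `T` -/
def pt {k : ℕ} (T : Finset (Vk k)) : Vk k → Bool := fun v => decide (v ∈ T)

theorem st_pt {k : ℕ} (T : Finset (Vk k)) : st (pt T) = T := by
  ext v; simp [mem_st, pt]

theorem pt_st {k : ℕ} (x : Vk k → Bool) : pt (st x) = x := by
  ext v; simp [mem_st, pt]

theorem blk_pt {k : ℕ} (T : Finset (Vk (k + 1))) (p : Bool × Bool) : blk (pt T) p = pt (sect p T) := by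
  ext v
  simp only [blk, pt, mem_sect]
  rfl

theorem f_iff : ∀ {k : ℕ} (T : Finset (Vk k)), (f k (pt T) = true ↔ ∃ g ∈ HG k, g ⊆ T) ∧
    (f k (pt T) = false ↔ ∃ e ∈ HE k, Disjoint e T)
  | 0, T => by
    have : ∀ T : Finset Bool,
        (((decide (false ∈ T) || decide (true ∈ T)) = true) ↔
          ∃ g ∈ ({{false}, {true}} : Finset (Finset Bool)), g ⊆ T) ∧
        (((decide (false ∈ T) || decide (true ∈ T)) = false) ↔
          ∃ e ∈ ({{false, true}} : Finset (Finset Bool)), Disjoint e T) := by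
      decide
    exact this T
  | k + 1, T => by
    have ih := fun p => f_iff (sect p T)
    have e : f (k + 1) (pt T) = ((f k (pt (sect (false, false) T)) &&
        f k (pt (sect (false, true) T))) || (f k (pt (sect (true, false) T)) &&
        f k (pt (sect (true, true) T)))) := by
      simp only [f, blk_pt]
    constructor
    · rw [e, Bool.or_eq_true, Bool.and_eq_true, Bool.and_eq_true, (ih _).1, (ih _).1, (ih _).1,
        (ih _).1]
      constructor
      · rintro (⟨⟨g, hg, hg'⟩, ⟨h, hh, hh'⟩⟩ | ⟨⟨g, hg, hg'⟩, ⟨h, hh, hh'⟩⟩)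
        · exact ⟨_, mem_HG.2 ⟨false, g, hg, h, hh, rfl⟩, join_subset.2 ⟨hg', hh'⟩⟩
        · exact ⟨_, mem_HG.2 ⟨true, g, hg, h, hh, rfl⟩, join_subset.2 ⟨hg', hh'⟩⟩
      · rintro ⟨t, ht, hs⟩
        obtain ⟨i, g, hg, h, hh, rfl⟩ := mem_HG.1 ht
        obtain ⟨h1, h2⟩ := join_subset.1 hs
        cases i with
        | false => exact Or.inl ⟨⟨g, hg, h1⟩, ⟨h, hh, h2⟩⟩
        | true => exact Or.inr ⟨⟨g, hg, h1⟩, ⟨h, hh, h2⟩⟩
    · rw [e, Bool.or_eq_false_iff, Bool.and_eq_false_iff, Bool.and_eq_false_iff, (ih _).2, (ih _).2,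
        (ih _).2, (ih _).2]
      constructor
      · rintro ⟨(⟨g, hg, hg'⟩ | ⟨g, hg, hg'⟩), (⟨h, hh, hh'⟩ | ⟨h, hh, hh'⟩)⟩
        · exact ⟨_, mem_HE.2 ⟨false, g, hg, false, h, hh, rfl⟩, join_disjoint.2 ⟨hg', hh'⟩⟩
        · exact ⟨_, mem_HE.2 ⟨false, g, hg, true, h, hh, rfl⟩, join_disjoint.2 ⟨hg', hh'⟩⟩
        · exact ⟨_, mem_HE.2 ⟨true, g, hg, false, h, hh, rfl⟩, join_disjoint.2 ⟨hg', hh'⟩⟩
        · exact ⟨_, mem_HE.2 ⟨true, g, hg, true, h, hh, rfl⟩, join_disjoint.2 ⟨hg', hh'⟩⟩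
      · rintro ⟨t, ht, hs⟩
        obtain ⟨i, g, hg, j, h, hh, rfl⟩ := mem_HE.1 ht
        obtain ⟨h1, h2⟩ := join_disjoint.1 hs
        constructor
        · cases i with
          | false => exact Or.inl ⟨g, hg, h1⟩
          | true => exact Or.inr ⟨g, hg, h1⟩
        · cases j with
          | false => exact Or.inl ⟨h, hh, h2⟩
          | true => exact Or.inr ⟨h, hh, h2⟩

theorem not_isTransversal_iff {V : Type} {H : Finset (Finset V)} {T : Finset V} :
    ¬ IsTransversal H T ↔ ∃ e ∈ H, Disjoint e T := by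
  unfold IsTransversal
  push Not
  simp only [Finset.disjoint_left]

theorem isTransversal_iff {k : ℕ} (T : Finset (Vk k)) :
    IsTransversal (HE k) T ↔ f k (pt T) = true := by
  rw [← not_iff_not, not_isTransversal_iff, ← (f_iff T).2, Bool.not_eq_true]

theorem isTransversal_iff' {k : ℕ} (T : Finset (Vk k)) :
    IsTransversal (HE k) T ↔ ∃ g ∈ HG k, g ⊆ T := by
  rw [isTransversal_iff, (f_iff T).1]

theorem isTransversal_iff'' {k : ℕ} (T : Finset (Vk k)) :
    IsTransversal (HG k) T ↔ ∃ e ∈ HE k, e ⊆ T := by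
  have h1 : ¬ IsTransversal (HG k) T ↔ ∃ g ∈ HG k, g ⊆ Tᶜ := by
    rw [not_isTransversal_iff]
    refine exists_congr fun g => and_congr_right fun _ => ?_
    rw [← disjoint_compl_right_iff, compl_compl]
  have h2 : (∃ e ∈ HE k, e ⊆ T) ↔ ∃ e ∈ HE k, Disjoint e Tᶜ := by
    refine exists_congr fun g => and_congr_right fun _ => ?_
    rw [← disjoint_compl_right_iff]
  rw [h2, ← (f_iff _).2, ← not_iff_not, h1, ← (f_iff _).1, Bool.not_eq_false]

theorem Tr_eq {V : Type} {H K : Finset (Finset V)} {m : ℕ} (hc : ∀ g ∈ K, g.card = m)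
    (h : ∀ T, IsTransversal H T ↔ ∃ g ∈ K, g ⊆ T) : Tr H = (K : Set (Finset V)) := by
  ext T
  simp only [Tr, Set.mem_ofPred_eq, Finset.mem_coe]
  constructor
  · rintro ⟨h1, h2⟩
    obtain ⟨g, hg, hgT⟩ := (h T).1 h1
    rcases eq_or_ssubset_of_subset hgT with e | e
    · rwa [← e]
    · exact absurd ((h g).2 ⟨g, hg, le_refl _⟩) (h2 g e)
  · intro hT
    refine ⟨(h T).2 ⟨T, hT, le_refl _⟩, fun S hS hS' => ?_⟩
    obtain ⟨g, hg, hgS⟩ := (h S).1 hS'
    have h1 := Finset.card_lt_card hS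
    have h2 := Finset.card_le_card hgS
    rw [hc g hg] at h2
    rw [hc T hT] at h1
    omega

theorem Tr_HE (k : ℕ) : Tr (HE k) = (HG k : Set (Finset (Vk k))) :=
  Tr_eq (fun _ h => card_of_mem_HG h) isTransversal_iff'

theorem Tr_HG (k : ℕ) : Tr (HG k) = (HE k : Set (Finset (Vk k))) :=
  Tr_eq (fun _ h => card_of_mem_HE h) isTransversal_iff''

theorem card_Vk : ∀ k, Fintype.card (Vk k) = 2 * 4 ^ k
  | 0 => Fintype.card_bool
  | k + 1 => by
    have : Fintype.card (Vk (k + 1)) = Fintype.card (Bool × Bool) * Fintype.card (Vk k) :=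
      Fintype.card_prod _ _
    rw [this, card_Vk k]
    simp
    ring

end Pool.Agent.L5helper90.DU
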