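import Mathlib

/-!
# The weight functional on the cube

`Vk k` is a set with `2 * 4 ^ k` elements, `f k` the monotone read-once function on it with
alternating levels, `w k` a signed weight on the cube with `|w k (C)| ≤ 1` for all subcubes `C` and
`w k (f k) = M k`, `|M k| ≥ 2 ^ ((2 * 4 ^ k + 1) / 3)`.
-/

set_option autoImplicit false

namespace Pool.Agent.L5helper90.DU

/-- the vertices -/
def Vk : ℕ → Type
  | 0 => Bool
  | k + 1 => (Bool × Bool) × Vk k

instance instFintypeVk : ∀ k, Fintype (Vk k)
  | 0 => inferInstanceAs (Fintype Bool)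
  | k + 1 => by
    haveI := instFintypeVk k
    exact inferInstanceAs (Fintype ((Bool × Bool) × Vk k))

instance instDecEqVk : ∀ k, DecidableEq (Vk k)
  | 0 => inferInstanceAs (DecidableEq Bool)
  | k + 1 => by
    haveI := instDecEqVk k
    exact inferInstanceAs (DecidableEq ((Bool × Bool) × Vk k))

/-- block `p` of a point of the cube -/
def blk {k : ℕ} (x : Vk (k + 1) → Bool) (p : Bool × Bool) : Vk k → Bool := fun v => x (p, v)

/-- the read-once function -/
def f : ∀ k, (Vk k → Bool) → Bool
  | 0 => fun x => (x : Bool → Bool) false || (x : Bool → Bool) true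
  | k + 1 => fun x => (f k (blk x (false, false)) && f k (blk x (false, true))) ||
      (f k (blk x (true, false)) && f k (blk x (true, true)))

/-- the weight -/
def w : ∀ k, (Vk k → Bool) → ℤ
  | 0 => fun x => if (x : Bool → Bool) false then (if (x : Bool → Bool) true then 0 else 1)
      else (if (x : Bool → Bool) true then 1 else -1)
  | k + 1 => fun x => ∏ p : Bool × Bool, w k (blk x p)

/-- the indicator function of a product set -/
def ind {V : Type} [Fintype V] (S : V → Bool → Bool) (x : V → Bool) : ℤ :=
  if ∀ v, S v (x v) = true then 1 else 0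

theorem sum_prod (k : ℕ) (h : Bool × Bool → (Vk k → Bool) → ℤ) :
    ∑ x : Vk (k + 1) → Bool, ∏ p, h p (blk x p) = ∏ p, ∑ y, h p y := by
  classical
  rw [Finset.prod_univ_sum, Fintype.piFinset_univ]
  exact Fintype.sum_equiv (Equiv.curry (Bool × Bool) (Vk k) Bool) _ _ (fun x => rfl)

theorem sum_w : ∀ k, ∑ x, w k x = 1
  | 0 => by decide
  | k + 1 => by
    have h := sum_prod k (fun _ => w k)
    have h2 : ∑ x : Vk (k + 1) → Bool, w (k + 1) x = ∏ p : Bool × Bool, ∑ y, w k y := h
    rw [h2, sum_w k]
    simp

theorem ind_succ {k : ℕ} (S : Vk (k + 1) → Bool → Bool) (x : Vk (k + 1) → Bool) :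
    ind S x = ∏ p : Bool × Bool, ind (fun v => S (p, v)) (blk x p) := by
  classical
  unfold ind
  by_cases h : ∀ v, S v (x v) = true
  · rw [if_pos h]
    symm
    refine Finset.prod_eq_one fun p _ => ?_
    rw [if_pos]
    intro v
    exact h (p, v)
  · rw [if_neg h]
    obtain ⟨⟨p, v⟩, hv⟩ := not_forall.1 h
    symm
    refine Finset.prod_eq_zero (Finset.mem_univ p) ?_
    rw [if_neg]
    intro h'
    exact hv (h' v)

theorem abs_cube : ∀ (k : ℕ) (S : Vk k → Bool → Bool), |∑ x, w k x * ind S x| ≤ 1
  | 0 => by
    have h : ∀ S : Bool → Bool → Bool, |∑ x : Bool → Bool, w 0 x * ind (V := Bool) S x| ≤ 1 := by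
      decide
    exact h
  | k + 1 => by
    intro S
    have h := sum_prod k (fun p y => w k y * ind (fun v => S (p, v)) y)
    have h2 : ∑ x : Vk (k + 1) → Bool, w (k + 1) x * ind S x =
        ∏ p, ∑ y, w k y * ind (fun v => S (p, v)) y := by
      rw [← h]
      refine Finset.sum_congr rfl fun x _ => ?_
      rw [ind_succ, Finset.prod_mul_distrib]
      rfl
    rw [h2, Finset.abs_prod]
    exact Finset.prod_le_one (fun _ _ => abs_nonneg _) fun p _ => abs_cube k _

/-- the value of the function -/
def M : ℕ → ℤ
  | 0 => 2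
  | k + 1 => 2 * M k ^ 2 - M k ^ 4

/-- the indicator function of `f` -/
def F (k : ℕ) (x : Vk k → Bool) : ℤ := if f k x = true then 1 else 0

theorem sum_wf : ∀ k, ∑ x, w k x * F k x = M k
  | 0 => by decide
  | k + 1 => by
    have ih := sum_wf k
    have e1 : ∀ x : Vk (k + 1) → Bool, F (k + 1) x =
        F k (blk x (false, false)) * F k (blk x (false, true)) +
        F k (blk x (true, false)) * F k (blk x (true, true)) -
        F k (blk x (false, false)) * F k (blk x (false, true)) *
        (F k (blk x (true, false)) * F k (blk x (true, true))) := by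
      intro x
      have key : ∀ a b c d : Bool, (if ((a && b) || (c && d)) = true then (1 : ℤ) else 0) =
          (if a = true then 1 else 0) * (if b = true then 1 else 0) +
          (if c = true then 1 else 0) * (if d = true then 1 else 0) -
          (if a = true then 1 else 0) * (if b = true then 1 else 0) *
          ((if c = true then 1 else 0) * (if d = true then 1 else 0)) := by decide
      exact key _ _ _ _
    have hw : ∀ x : Vk (k + 1) → Bool, w (k + 1) x = w k (blk x (false, false)) *
        w k (blk x (false, true)) * (w k (blk x (true, false)) * w k (blk x (true, true))) := by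
      intro x
      simp only [w, Fintype.prod_prod_type, Fintype.prod_bool]
      ring
    have h1 := sum_prod k (fun p y => w k y * (if p.1 = false then F k y else 1))
    have h2 := sum_prod k (fun p y => w k y * (if p.1 = true then F k y else 1))
    have h3 := sum_prod k (fun _ y => w k y * F k y)
    simp only [Fintype.prod_prod_type, Fintype.prod_bool, Bool.true_eq_false,
      Bool.false_eq_true, if_true, if_false, mul_one, ih, sum_w k] at h1 h2 h3
    have h4 : ∑ x : Vk (k + 1) → Bool, w (k + 1) x * F (k + 1) x =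
        (∑ x : Vk (k + 1) → Bool, w k (blk x (true, true)) * w k (blk x (true, false)) *
          (w k (blk x (false, true)) * F k (blk x (false, true)) *
            (w k (blk x (false, false)) * F k (blk x (false, false))))) +
        (∑ x : Vk (k + 1) → Bool, w k (blk x (true, true)) * F k (blk x (true, true)) *
          (w k (blk x (true, false)) * F k (blk x (true, false))) *
            (w k (blk x (false, true)) * w k (blk x (false, false)))) -
        (∑ x : Vk (k + 1) → Bool, w k (blk x (true, true)) * F k (blk x (true, true)) *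
          (w k (blk x (true, false)) * F k (blk x (true, false))) *
          (w k (blk x (false, true)) * F k (blk x (false, true)) *
            (w k (blk x (false, false)) * F k (blk x (false, false))))) := by
      rw [← Finset.sum_add_distrib, ← Finset.sum_sub_distrib]
      refine Finset.sum_congr rfl fun x _ => ?_
      rw [e1 x, hw x]
      ring
    rw [h4, h1, h2, h3]
    simp only [M]
    ring

theorem M_sq (k : ℕ) : 4 ≤ M k ^ 2 ∧ (2 : ℤ) ^ (2 * 4 ^ k + 1) ≤ |M k| ^ 3 := by
  induction k with
  | zero => simp [M]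
  | succ k ih =>
    obtain ⟨h1, h2⟩ := ih
    set m := |M k| with hm
    have hm0 : 0 ≤ m := abs_nonneg _
    have hm2 : m ^ 2 = M k ^ 2 := sq_abs _
    have hm4 : m ^ 4 = M k ^ 4 := by
      have : m ^ 4 = (m ^ 2) ^ 2 := by ring
      rw [this, hm2]; ring
    have e : |M (k + 1)| = m ^ 4 - 2 * m ^ 2 := by
      simp only [M]
      rw [← hm2, ← hm4, abs_sub_comm, abs_of_nonneg]
      nlinarith
    have hmge : 2 ≤ m := by
      by_contra hc
      have hc' : m < 2 := not_le.1 hc
      nlinarith
    have h5 : m ^ 4 ≤ 2 * |M (k + 1)| := by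
      rw [e]
      nlinarith
    refine ⟨?_, ?_⟩
    · have : 2 ≤ |M (k + 1)| := by
        have : 16 ≤ m ^ 4 := by
          calc (16 : ℤ) = 2 ^ 4 := by norm_num
            _ ≤ m ^ 4 := pow_le_pow_left₀ (by norm_num) hmge 4
        linarith
      rw [← sq_abs]
      nlinarith
    · -- `(m ^ 4) ^ 3 ≤ 8 |M (k+1)| ^ 3`
      have h6 : (m ^ 4) ^ 3 ≤ (2 * |M (k + 1)|) ^ 3 :=
        pow_le_pow_left₀ (by positivity) h5 3
      have h7 : (2 : ℤ) ^ ((2 * 4 ^ k + 1) * 4) ≤ (m ^ 3) ^ 4 := by
        rw [pow_mul]
        exact pow_le_pow_left₀ (by positivity) h2 4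
      have h8 : (2 : ℤ) ^ ((2 * 4 ^ k + 1) * 4) = 8 * 2 ^ (2 * 4 ^ (k + 1) + 1) := by
        have : (2 * 4 ^ k + 1) * 4 = 3 + (2 * 4 ^ (k + 1) + 1) := by ring
        rw [this, pow_add]
        norm_num
      have h9 : (m ^ 3) ^ 4 = (m ^ 4) ^ 3 := by ring
      have h10 : (2 * |M (k + 1)|) ^ 3 = 8 * |M (k + 1)| ^ 3 := by ring
      rw [h8, h9] at h7
      rw [h10] at h6
      linarith

end Pool.Agent.L5helper90.DU
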