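import Pool.Agent.L5helper90.DU.Defs
import Pool.Agent.L5helper90.DU.Fun

/-!
# The lower bounds for decision trees and for sums of intervals
-/

set_option autoImplicit false

namespace Pool.Agent.L5helper90.DU

open Pool.Agent.L5helper90.DU.Tree

/-- the set of the point `x` -/
def st {k : ℕ} (x : Vk k → Bool) : Finset (Vk k) := Finset.univ.filter fun v => x v = true

theorem mem_st {k : ℕ} (x : Vk k → Bool) (v : Vk k) : v ∈ st x ↔ x v = true := by
  simp [st]

theorem tree_aux {k : ℕ} {L : Type} (S : Set L) [DecidablePred (· ∈ S)] :
    ∀ (t : Tree (Vk k) L) (C : Vk k → Bool → Bool),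
      |∑ x, w k x * ind C x * (if t.run (st x) ∈ S then 1 else 0)| ≤ (t.leaves : ℤ)
  | leaf l, C => by
    simp only [run, leaves]
    by_cases h : l ∈ S
    · simp only [h, if_true, mul_one]
      simpa using abs_cube k C
    · simp only [h, if_false, mul_zero, Finset.sum_const_zero, abs_zero]
      norm_num
  | node v s t, C => by
    have h1 := tree_aux S s (fun u b => C u b && (!(decide (u = v)) || b))
    have h2 := tree_aux S t (fun u b => C u b && (!(decide (u = v)) || !b))
    have i1 : ∀ x : Vk k → Bool, x v = true →
        ind (fun u b => C u b && (!(decide (u = v)) || b)) x = ind C x := by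
      intro x hx
      unfold ind
      congr 1
      apply propext
      refine forall_congr' fun u => ?_
      by_cases hu : u = v
      · subst hu; simp [hx]
      · simp [hu]
    have i2 : ∀ x : Vk k → Bool, x v = false →
        ind (fun u b => C u b && (!(decide (u = v)) || b)) x = 0 := by
      intro x hx
      unfold ind
      rw [if_neg]
      intro h
      have := h v
      simp [hx] at this
    have i3 : ∀ x : Vk k → Bool, x v = false →
        ind (fun u b => C u b && (!(decide (u = v)) || !b)) x = ind C x := by
      intro x hx
      unfold ind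
      congr 1
      apply propext
      refine forall_congr' fun u => ?_
      by_cases hu : u = v
      · subst hu; simp [hx]
      · simp [hu]
    have i4 : ∀ x : Vk k → Bool, x v = true →
        ind (fun u b => C u b && (!(decide (u = v)) || !b)) x = 0 := by
      intro x hx
      unfold ind
      rw [if_neg]
      intro h
      have := h v
      simp [hx] at this
    have h3 : ∑ x, w k x * ind C x * (if (node v s t).run (st x) ∈ S then 1 else 0) =
        ∑ x, w k x * ind (fun u b => C u b && (!(decide (u = v)) || b)) x *
          (if s.run (st x) ∈ S then 1 else 0) +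
        ∑ x, w k x * ind (fun u b => C u b && (!(decide (u = v)) || !b)) x *
          (if t.run (st x) ∈ S then 1 else 0) := by
      rw [← Finset.sum_add_distrib]
      refine Finset.sum_congr rfl fun x _ => ?_
      cases hx : x v with
      | true =>
        rw [i1 x hx, i4 x hx]
        have : (node v s t).run (st x) = s.run (st x) := by
          simp [run, mem_st, hx]
        rw [this]; ring
      | false =>
        rw [i2 x hx, i3 x hx]
        have : (node v s t).run (st x) = t.run (st x) := by
          simp [run, mem_st, hx]
        rw [this]; ring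
    rw [h3]
    calc |_ + _| ≤ _ := abs_add_le _ _
      _ ≤ (s.leaves : ℤ) + t.leaves := add_le_add h1 h2
      _ = _ := by simp [leaves]

theorem tree_bound {k : ℕ} {L : Type} (S : Set L) (t : Tree (Vk k) L)
    (h : ∀ x : Vk k → Bool, t.run (st x) ∈ S ↔ f k x = true) : |M k| ≤ (t.leaves : ℤ) := by
  classical
  have h1 := tree_aux S t (fun _ _ => true)
  have h2 : ∑ x, w k x * ind (fun _ _ => true) x * (if t.run (st x) ∈ S then 1 else 0) = M k := by
    rw [← sum_wf k]
    refine Finset.sum_congr rfl fun x _ => ?_
    simp only [ind, F, h x]
    simp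
  rwa [h2] at h1

theorem interval_bound {k : ℕ} {ι : Type} [Fintype ι] (c : ι → ℝ) (A B : ι → Finset (Vk k))
    (h : ∀ x : Vk k → Bool, ∑ i, c i * (if A i ⊆ st x ∧ st x ⊆ B i then 1 else 0) =
      if f k x = true then 1 else 0) : (|M k| : ℝ) ≤ ∑ i, |c i| := by
  classical
  have h1 : (M k : ℝ) = ∑ i, c i * ∑ x, ((w k x : ℤ) : ℝ) *
      (ind (fun v b => (!(decide (v ∈ A i)) || b) && (decide (v ∈ B i) || !b)) x : ℤ) := by
    have e1 : (M k : ℝ) = ∑ x, ((w k x : ℤ) : ℝ) * (if f k x = true then 1 else 0) := by
      rw [← sum_wf k]
      push_cast
      refine Finset.sum_congr rfl fun x _ => ?_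
      simp only [F]
      split_ifs <;> simp
    rw [e1]
    simp_rw [← h, Finset.mul_sum]
    rw [Finset.sum_comm]
    refine Finset.sum_congr rfl fun i _ => Finset.sum_congr rfl fun x _ => ?_
    have e2 : (if A i ⊆ st x ∧ st x ⊆ B i then (1 : ℝ) else 0) =
        ((ind (fun v b => (!(decide (v ∈ A i)) || b) && (decide (v ∈ B i) || !b)) x : ℤ) : ℝ) := by
      unfold ind
      have : (A i ⊆ st x ∧ st x ⊆ B i) ↔
          ∀ v, ((!(decide (v ∈ A i)) || x v) && (decide (v ∈ B i) || !(x v))) = true := by
        constructor
        · rintro ⟨h1, h2⟩ v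
          cases hx : x v with
          | true =>
            have := h2 ((mem_st x v).2 hx)
            simp [this]
          | false =>
            have : v ∉ A i := fun hv => by
              have := (mem_st x v).1 (h1 hv)
              simp [hx] at this
            simp [this]
        · intro h
          refine ⟨fun v hv => ?_, fun v hv => ?_⟩
          · rw [mem_st]
            have := h v
            simp [hv] at this
            exact this.1
          · rw [mem_st] at hv
            have := h v
            simp [hv] at this
            exact this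
      simp only [this]
      split_ifs <;> simp
    rw [e2]; ring
  calc (|M k| : ℝ) = |((M k : ℤ) : ℝ)| := by push_cast; rfl
    _ ≤ ∑ i, |c i * ∑ x, ((w k x : ℤ) : ℝ) *
      (ind (fun v b => (!(decide (v ∈ A i)) || b) && (decide (v ∈ B i) || !b)) x : ℤ)| := by
        rw [h1]; exact Finset.abs_sum_le_sum_abs _ _
    _ ≤ ∑ i, |c i| := by
      refine Finset.sum_le_sum fun i _ => ?_
      rw [abs_mul]
      have h2 := abs_cube k (fun v b => (!(decide (v ∈ A i)) || b) && (decide (v ∈ B i) || !b))
      have h3 : |∑ x, ((w k x : ℤ) : ℝ) *
          (ind (fun v b => (!(decide (v ∈ A i)) || b) && (decide (v ∈ B i) || !b)) x : ℤ)| ≤ 1 := by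
        exact_mod_cast h2
      nlinarith [abs_nonneg (c i)]

end Pool.Agent.L5helper90.DU
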