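import Pool.Agent.L5helper90.DU.Dual

/-!
# A certifying decision tree with few different subtrees
-/

set_option autoImplicit false

namespace Pool.Agent.L5helper90.DU

open Pool.Agent.L5helper90.DU.Tree

/-- run a decision tree for block `p`, then continue with `φ` -/
def graft {k : ℕ} {L L' : Type} (p : Bool × Bool) (φ : L → Tree (Vk (k + 1)) L') :
    Tree (Vk k) L → Tree (Vk (k + 1)) L'
  | leaf l => φ l
  | node v s t => node (emb p v) (graft p φ s) (graft p φ t)

theorem run_graft {k : ℕ} {L L' : Type} (p : Bool × Bool) (φ : L → Tree (Vk (k + 1)) L')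
    (T : Finset (Vk (k + 1))) :
    ∀ t : Tree (Vk k) L, (graft p φ t).run T = (φ (t.run (sect p T))).run T
  | leaf l => rfl
  | node v s t => by
    simp only [graft, run, mem_sect]
    split_ifs
    · exact run_graft p φ T s
    · exact run_graft p φ T t

/-- all the labels satisfy `P` -/
def All {V L : Type} (P : L → Prop) : Tree V L → Prop
  | leaf l => P l
  | node _ s t => All P s ∧ All P t

theorem all_graft {k : ℕ} {L L' : Type} (p : Bool × Bool) (φ : L → Tree (Vk (k + 1)) L')
    {P : L → Prop} {Q : L' → Prop} (h : ∀ l, P l → All Q (φ l)) :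
    ∀ t : Tree (Vk k) L, All P t → All Q (graft p φ t)
  | leaf l, hl => h l hl
  | node _ s t, hl => ⟨all_graft p φ h s hl.1, all_graft p φ h t hl.2⟩

theorem all_run {V L : Type} [DecidableEq V] {P : L → Prop} (T : Finset V) :
    ∀ t : Tree V L, All P t → P (t.run T)
  | leaf l, hl => hl
  | node v s t, hl => by
    simp only [run]
    split_ifs
    · exact all_run T s hl.1
    · exact all_run T t hl.2

theorem subtrees_graft {k : ℕ} {L L' : Type} (p : Bool × Bool) (φ : L → Tree (Vk (k + 1)) L')
    {P : L → Prop} (R : Set (Tree (Vk (k + 1)) L')) (S : Set (Tree (Vk k) L))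
    (hR : ∀ l, P l → (φ l).subtrees ⊆ R) :
    ∀ t : Tree (Vk k) L, All P t → t.subtrees ⊆ S → (graft p φ t).subtrees ⊆ (graft p φ '' S) ∪ R
  | leaf l, hl, _ => fun u hu => Or.inr (hR l hl hu)
  | node v s t, hl, hS => by
    intro u hu
    simp only [graft, subtrees, Set.mem_insert_iff, Set.mem_union] at hu
    simp only [subtrees, Set.insert_subset_iff, Set.union_subset_iff] at hS
    rcases hu with rfl | hu | hu
    · exact Or.inl ⟨_, hS.1, rfl⟩
    · exact subtrees_graft p φ R S hR s hl.1 hS.2.1 hu
    · exact subtrees_graft p φ R S hR t hl.2 hS.2.2 hu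

/-- certificates -/
abbrev Cert (k : ℕ) := Finset (Vk k) ⊕ Finset (Vk k)

/-- last step of the second half -/
def φ3 {k : ℕ} (c : Bool × Finset (Vk k)) (g : Finset (Vk k)) :
    Cert k → Tree (Vk (k + 1)) (Cert (k + 1))
  | Sum.inl e => leaf (Sum.inl (mkE (c, (true, e))))
  | Sum.inr h => leaf (Sum.inr (mkG (true, g, h)))

/-- first step of the second half -/
def φ2 {k : ℕ} (t : Tree (Vk k) (Cert k)) (c : Bool × Finset (Vk k)) :
    Cert k → Tree (Vk (k + 1)) (Cert (k + 1))
  | Sum.inl e => leaf (Sum.inl (mkE (c, (false, e))))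
  | Sum.inr g => graft (true, true) (φ3 c g) t

/-- last step of the first half -/
def φ1 {k : ℕ} (t : Tree (Vk k) (Cert k)) (g : Finset (Vk k)) :
    Cert k → Tree (Vk (k + 1)) (Cert (k + 1))
  | Sum.inl e => graft (true, false) (φ2 t (true, e)) t
  | Sum.inr h => leaf (Sum.inr (mkG (false, g, h)))

/-- first step of the first half -/
def φ0 {k : ℕ} (t : Tree (Vk k) (Cert k)) :
    Cert k → Tree (Vk (k + 1)) (Cert (k + 1))
  | Sum.inl e => graft (true, false) (φ2 t (false, e)) t
  | Sum.inr g => graft (false, true) (φ1 t g) t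

/-- the decision tree -/
def PT : ∀ k, Tree (Vk k) (Cert k)
  | 0 => (node false (leaf (Sum.inr {false})) (node true (leaf (Sum.inr {true}))
      (leaf (Sum.inl {false, true}))) : Tree Bool (Finset Bool ⊕ Finset Bool))
  | k + 1 => graft (false, false) (φ0 (PT k)) (PT k)

/-- certificates with members of the two hypergraphs -/
def Good {k : ℕ} : Cert k → Prop
  | Sum.inl e => e ∈ HE k
  | Sum.inr g => g ∈ HG k

theorem mkG_mem {k : ℕ} {i : Bool} {g h : Finset (Vk k)} (hg : g ∈ HG k) (hh : h ∈ HG k) :
    mkG (i, g, h) ∈ HG (k + 1) := mem_HG.2 ⟨i, g, hg, h, hh, rfl⟩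

theorem mkE_mem {k : ℕ} {i j : Bool} {g h : Finset (Vk k)} (hg : g ∈ HE k) (hh : h ∈ HE k) :
    mkE ((i, g), (j, h)) ∈ HE (k + 1) := mem_HE.2 ⟨i, g, hg, j, h, hh, rfl⟩

theorem good3 {k : ℕ} {c : Bool × Finset (Vk k)} (hc : c.2 ∈ HE k) {g : Finset (Vk k)}
    (hg : g ∈ HG k) (l : Cert k) (hl : Good l) : All Good (φ3 c g l) := by
  cases l with
  | inl e => exact mkE_mem hc hl
  | inr h => exact mkG_mem hg hl

theorem good2 {k : ℕ} {t : Tree (Vk k) (Cert k)} (ht : All Good t) {c : Bool × Finset (Vk k)}
    (hc : c.2 ∈ HE k) (l : Cert k) (hl : Good l) : All Good (φ2 t c l) := by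
  cases l with
  | inl e => exact mkE_mem hc hl
  | inr g => exact all_graft _ _ (good3 hc hl) t ht

theorem good1 {k : ℕ} {t : Tree (Vk k) (Cert k)} (ht : All Good t) {g : Finset (Vk k)}
    (hg : g ∈ HG k) (l : Cert k) (hl : Good l) : All Good (φ1 t g l) := by
  cases l with
  | inl e => exact all_graft _ _ (good2 ht (c := (true, e)) hl) t ht
  | inr h => exact mkG_mem hg hl

theorem good0 {k : ℕ} {t : Tree (Vk k) (Cert k)} (ht : All Good t)
    (l : Cert k) (hl : Good l) : All Good (φ0 t l) := by
  cases l with
  | inl e => exact all_graft _ _ (good2 ht (c := (false, e)) hl) t ht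
  | inr g => exact all_graft _ _ (good1 ht hl) t ht

theorem good_PT : ∀ k, All Good (PT k)
  | 0 => by
    have h1 : ({false} : Finset Bool) ∈ ({{false}, {true}} : Finset (Finset Bool)) := by decide
    have h2 : ({true} : Finset Bool) ∈ ({{false}, {true}} : Finset (Finset Bool)) := by decide
    have h3 : ({false, true} : Finset Bool) ∈ ({{false, true}} : Finset (Finset Bool)) := by decide
    exact ⟨h1, h2, h3⟩
  | k + 1 => all_graft _ _ (good0 (good_PT k)) _ (good_PT k)

/-- what the label says about the set -/
def Right {k : ℕ} (T : Finset (Vk k)) : Cert k → Prop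
  | Sum.inl e => Disjoint e T
  | Sum.inr g => g ⊆ T

theorem right3 {k : ℕ} {t : Tree (Vk k) (Cert k)} (ht : ∀ T, Right T (t.run T))
    (T : Finset (Vk (k + 1))) (c : Bool × Finset (Vk k)) (hc : Disjoint c.2 (sect (false, c.1) T))
    (g : Finset (Vk k)) (hg : g ⊆ sect (true, false) T) :
    Right T ((graft (true, true) (φ3 c g) t).run T) := by
  rw [run_graft]
  have h := ht (sect (true, true) T)
  revert h
  cases t.run (sect (true, true) T) with
  | inl e => exact fun h => join_disjoint.2 ⟨hc, h⟩
  | inr h => exact fun h => join_subset.2 ⟨hg, h⟩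

theorem right2 {k : ℕ} {t : Tree (Vk k) (Cert k)} (ht : ∀ T, Right T (t.run T))
    (T : Finset (Vk (k + 1))) (c : Bool × Finset (Vk k)) (hc : Disjoint c.2 (sect (false, c.1) T)) :
    Right T ((graft (true, false) (φ2 t c) t).run T) := by
  rw [run_graft]
  have h := ht (sect (true, false) T)
  revert h
  cases t.run (sect (true, false) T) with
  | inl e => exact fun h => join_disjoint.2 ⟨hc, h⟩
  | inr g => exact fun h => right3 ht T c hc g h

theorem right1 {k : ℕ} {t : Tree (Vk k) (Cert k)} (ht : ∀ T, Right T (t.run T))
    (T : Finset (Vk (k + 1))) (g : Finset (Vk k)) (hg : g ⊆ sect (false, false) T) :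
    Right T ((graft (false, true) (φ1 t g) t).run T) := by
  rw [run_graft]
  have h := ht (sect (false, true) T)
  revert h
  cases t.run (sect (false, true) T) with
  | inl e => exact fun h => right2 ht T (true, e) h
  | inr h => exact fun h => join_subset.2 ⟨hg, h⟩

theorem right_PT : ∀ k (T : Finset (Vk k)), Right T ((PT k).run T)
  | 0, T => by
    by_cases h1 : (false : Bool) ∈ (show Finset Bool from T)
    · have e : (PT 0).run T = Sum.inr ({false} : Finset Bool) := if_pos h1
      rw [e]
      exact Finset.singleton_subset_iff.2 h1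
    · by_cases h2 : (true : Bool) ∈ (show Finset Bool from T)
      · have e : (PT 0).run T = Sum.inr ({true} : Finset Bool) := (if_neg h1).trans (if_pos h2)
        rw [e]
        exact Finset.singleton_subset_iff.2 h2
      · have e : (PT 0).run T = Sum.inl ({false, true} : Finset Bool) :=
          (if_neg h1).trans (if_neg h2)
        rw [e]
        have key : ∀ T : Finset Bool, false ∉ T → true ∉ T →
            Disjoint ({false, true} : Finset Bool) T := by decide
        exact key T h1 h2
  | k + 1, T => by
    have ht := right_PT k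
    show Right T ((graft (false, false) (φ0 (PT k)) (PT k)).run T)
    rw [run_graft]
    have h := ht (sect (false, false) T)
    revert h
    cases (PT k).run (sect (false, false) T) with
    | inl e => exact fun h => right2 ht T (false, e) h
    | inr g => exact fun h => right1 ht T g h

theorem certifies_PT (k : ℕ) : Certifies (HE k) (HG k) (PT k) := by
  intro T
  have h1 := all_run T _ (good_PT k)
  have h2 := right_PT k T
  revert h1 h2
  cases (PT k).run T with
  | inl e => exact fun h1 h2 => Or.inl ⟨e, h1, rfl, h2⟩
  | inr g => exact fun h1 h2 => Or.inr ⟨g, h1, rfl, h2⟩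

open Classical in
theorem subtrees_zero : ∃ S : Finset (Tree Bool (Finset Bool ⊕ Finset Bool)),
    (node false (leaf (Sum.inr {false})) (node true (leaf (Sum.inr {true}))
      (leaf (Sum.inl {false, true}))) : Tree Bool (Finset Bool ⊕ Finset Bool)).subtrees ⊆
      (S : Set _) ∧ S.card ≤ 5 := by
  refine ⟨({node false (leaf (Sum.inr {false})) (node true (leaf (Sum.inr {true}))
      (leaf (Sum.inl {false, true}))), leaf (Sum.inr {false}),
      node true (leaf (Sum.inr {true})) (leaf (Sum.inl {false, true})), leaf (Sum.inr {true}),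
      leaf (Sum.inl {false, true})} : Finset (Tree Bool (Finset Bool ⊕ Finset Bool))), ?_,
      Finset.card_le_five⟩
  intro u hu
  simp only [subtrees, Set.mem_insert_iff, Set.mem_union, Set.mem_singleton_iff] at hu
  simp only [Finset.coe_insert, Finset.coe_singleton, Set.mem_insert_iff,
    Set.mem_singleton_iff]
  tauto

open Classical in
theorem subtrees_PT : ∀ k, ∃ S : Finset (Tree (Vk k) (Cert k)), (PT k).subtrees ⊆ (S : Set _) ∧
    S.card ≤ 5 * (HE k).card ^ 2
  | 0 => by
    have e : (HE 0).card = 1 := by rw [card_HE]; norm_num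
    rw [e]
    exact subtrees_zero
  | k + 1 => by
    obtain ⟨S, hS, hc⟩ := subtrees_PT k
    have hP := good_PT k
    -- the leaves
    set R0 : Finset (Tree (Vk (k + 1)) (Cert (k + 1))) :=
      (HE (k + 1)).image (fun e => leaf (Sum.inl e)) ∪ (HG (k + 1)).image (fun g => leaf (Sum.inr g))
      with hR0
    have r0 : ∀ l : Cert (k + 1), Good l → leaf l ∈ R0 := by
      intro l hl
      rw [hR0, Finset.mem_union]
      cases l with
      | inl e => exact Or.inl (Finset.mem_image_of_mem _ hl)
      | inr g => exact Or.inr (Finset.mem_image_of_mem _ hl)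
    have c0 : R0.card ≤ (HE (k + 1)).card + (HG (k + 1)).card :=
      (Finset.card_union_le _ _).trans (add_le_add Finset.card_image_le Finset.card_image_le)
    set C : Finset (Bool × Finset (Vk k)) := Finset.univ ×ˢ HE k with hC
    have memC : ∀ {b : Bool} {e : Finset (Vk k)}, e ∈ HE k → (b, e) ∈ C := by
      intro b e he
      simp [hC, he]
    have cC : C.card = 2 * (HE k).card := by
      rw [hC, Finset.card_product]; simp
    -- the fourth block
    set R3 : Finset (Tree (Vk (k + 1)) (Cert (k + 1))) :=
      (C ×ˢ HG k).biUnion (fun q => S.image (graft (true, true) (φ3 q.1 q.2))) with hR3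
    have r3 : ∀ c ∈ C, ∀ g ∈ HG k, (graft (true, true) (φ3 c g) (PT k)).subtrees ⊆
        ((R3 ∪ R0 : Finset _) : Set _) := by
      intro c hc' g hg u hu
      have := subtrees_graft (true, true) (φ3 c g) (R0 : Set _) (S : Set _) (P := Good)
        (fun l hl => by
          have h5 := good3 (c := c) (g := g) (by simpa [hC] using hc') hg l hl
          cases l with
          | inl e => 
            intro u hu
            have : u = leaf (Sum.inl (mkE (c, (true, e)))) := hu
            rw [this]
            exact r0 _ h5
          | inr h => 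
            intro u hu
            have : u = leaf (Sum.inr (mkG (true, g, h))) := hu
            rw [this]
            exact r0 _ h5) (PT k) hP hS hu
      rw [Finset.coe_union]
      refine this.imp (fun h => ?_) id
      obtain ⟨s, hs, rfl⟩ := h
      exact Finset.mem_biUnion.2 ⟨(c, g), Finset.mem_product.2 ⟨hc', hg⟩,
        Finset.mem_image_of_mem _ hs⟩
    have c3 : R3.card ≤ (2 * (HE k).card * (HG k).card) * S.card := by
      refine (Finset.card_biUnion_le_card_mul _ _ S.card fun q _ => Finset.card_image_le).trans ?_
      rw [Finset.card_product, cC]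
    -- the third block
    set R2 : Finset (Tree (Vk (k + 1)) (Cert (k + 1))) :=
      C.biUnion (fun c => S.image (graft (true, false) (φ2 (PT k) c))) with hR2
    have r2 : ∀ c ∈ C, (graft (true, false) (φ2 (PT k) c) (PT k)).subtrees ⊆
        ((R2 ∪ (R3 ∪ R0) : Finset _) : Set _) := by
      intro c hc' u hu
      have := subtrees_graft (true, false) (φ2 (PT k) c) ((R3 ∪ R0 : Finset _) : Set _)
        (S : Set _) (P := Good)
        (fun l hl => by
          cases l with
          | inl e =>
            have h5 := good2 (c := c) hP (by simpa [hC] using hc') (Sum.inl e) hl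
            intro u hu
            have : u = leaf (Sum.inl (mkE (c, (false, e)))) := hu
            rw [this, Finset.coe_union]
            exact Or.inr (r0 _ h5)
          | inr g => exact r3 c hc' g hl) (PT k) hP hS hu
      rw [Finset.coe_union]
      refine this.imp (fun h => ?_) id
      obtain ⟨s, hs, rfl⟩ := h
      exact Finset.mem_biUnion.2 ⟨c, hc', Finset.mem_image_of_mem _ hs⟩
    have c2 : R2.card ≤ (2 * (HE k).card) * S.card := by
      refine (Finset.card_biUnion_le_card_mul _ _ S.card fun q _ => Finset.card_image_le).trans ?_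
      rw [cC]
    -- the second block
    set R1 : Finset (Tree (Vk (k + 1)) (Cert (k + 1))) :=
      (HG k).biUnion (fun g => S.image (graft (false, true) (φ1 (PT k) g))) with hR1
    have r1 : ∀ g ∈ HG k, (graft (false, true) (φ1 (PT k) g) (PT k)).subtrees ⊆
        ((R1 ∪ (R2 ∪ (R3 ∪ R0)) : Finset _) : Set _) := by
      intro g hg u hu
      have := subtrees_graft (false, true) (φ1 (PT k) g) ((R2 ∪ (R3 ∪ R0) : Finset _) : Set _)
        (S : Set _) (P := Good)
        (fun l hl => by
          cases l with
          | inl e => exact r2 (true, e) (memC hl)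
          | inr h =>
            have h5 := good1 hP hg (Sum.inr h) hl
            intro u hu
            have : u = leaf (Sum.inr (mkG (false, g, h))) := hu
            rw [this, Finset.coe_union, Finset.coe_union]
            exact Or.inr (Or.inr (r0 _ h5))) (PT k) hP hS hu
      rw [Finset.coe_union]
      refine this.imp (fun h => ?_) id
      obtain ⟨s, hs, rfl⟩ := h
      exact Finset.mem_biUnion.2 ⟨g, hg, Finset.mem_image_of_mem _ hs⟩
    have c1 : R1.card ≤ (HG k).card * S.card :=
      Finset.card_biUnion_le_card_mul _ _ S.card fun q _ => Finset.card_image_le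
    -- the first block
    refine ⟨S.image (graft (false, false) (φ0 (PT k))) ∪ (R1 ∪ (R2 ∪ (R3 ∪ R0))), ?_, ?_⟩
    · intro u hu
      have := subtrees_graft (false, false) (φ0 (PT k))
        ((R1 ∪ (R2 ∪ (R3 ∪ R0)) : Finset _) : Set _) (S : Set _) (P := Good)
        (fun l hl => by
          cases l with
          | inl e =>
            refine (r2 (false, e) (memC hl)).trans ?_
            rw [Finset.coe_union R1]
            exact Set.subset_union_right
          | inr g => exact r1 g hl) (PT k) hP hS hu
      rw [Finset.coe_union, Finset.coe_image]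
      exact this
    · have h1 : (S.image (graft (false, false) (φ0 (PT k))) ∪ (R1 ∪ (R2 ∪ (R3 ∪ R0)))).card ≤
          S.card + ((HG k).card * S.card + ((2 * (HE k).card) * S.card +
            ((2 * (HE k).card * (HG k).card) * S.card + ((HE (k + 1)).card + (HG (k + 1)).card)))) :=
        (Finset.card_union_le _ _).trans (add_le_add Finset.card_image_le
          ((Finset.card_union_le _ _).trans (add_le_add c1
            ((Finset.card_union_le _ _).trans (add_le_add c2
              ((Finset.card_union_le _ _).trans (add_le_add c3 c0)))))))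
      refine h1.trans ?_
      have e1 : ∀ j, (HG j).card = 2 * (HE j).card := by
        intro j
        rw [card_HG, card_HE, ← pow_succ']
        congr 1
        have : 2 ≤ 2 ^ (j + 1) := by
          rw [pow_succ]; have := Nat.one_le_two_pow (n := j); omega
        omega
      have e2 : (HE (k + 1)).card = 4 * (HE k).card ^ 2 := by
        rw [card_HE, card_HE, ← pow_mul]
        have h4 : (4 : ℕ) = 2 ^ 2 := by norm_num
        rw [h4, ← pow_add]
        congr 1
        have : 2 ≤ 2 ^ (k + 1) := by
          rw [pow_succ]; have := Nat.one_le_two_pow (n := k); omega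
        rw [pow_succ 2 (k + 1)]
        omega
      have e3 : 1 ≤ (HE k).card := by rw [card_HE]; exact Nat.one_le_two_pow
      rw [e1 (k + 1), e1 k, e2]
      generalize (HE k).card = b at *
      have h6 : S.card + (2 * b * S.card + (2 * b * S.card + (2 * b * (2 * b) * S.card +
          (4 * b ^ 2 + 2 * (4 * b ^ 2))))) = S.card * (1 + 2 * b) ^ 2 + 12 * b ^ 2 := by ring
      rw [h6]
      have h7 : (1 + 2 * b) ^ 2 ≤ 9 * b ^ 2 := by nlinarith
      calc S.card * (1 + 2 * b) ^ 2 + 12 * b ^ 2 ≤ (5 * b ^ 2) * (9 * b ^ 2) + 12 * b ^ 2 := by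
            gcongr
        _ ≤ 5 * (4 * b ^ 2) ^ 2 := by
            have h8 : 1 ≤ b ^ 2 := Nat.one_le_pow _ _ e3
            nlinarith

end Pool.Agent.L5helper90.DU
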